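import Pool.Agent.Helper10.Qc.Stmts

set_option autoImplicit false

namespace Pool.Agent.Helper10.Qc

open MeasureTheory
open Pool.Agent.Helper19.Qh Pool.Agent.Helper19.Qc

theorem diag_unit {u : Q} (h : ‖u‖ = 1) : u * star u = 1 ∧ star u * u = 1 := by
  constructor
  · rw [Quaternion.self_mul_star, Quaternion.normSq_eq_norm_mul_self, h]
    norm_num
  · rw [Quaternion.star_mul_self, Quaternion.normSq_eq_norm_mul_self, h]
    norm_num

/-- multiplication by units on the right -/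
noncomputable def diagE (u v : Q) (hu : ‖u‖ = 1) (hv : ‖v‖ = 1) : V 1 ≃ₗ[Q] V 1 where
  toFun x := (x.1 * u, e1 (x.2.1 0 * v), x.2.2 * u)
  invFun x := (x.1 * star u, e1 (x.2.1 0 * star v), x.2.2 * star u)
  map_add' x y := by
    refine Prod.ext (add_mul _ _ _) (Prod.ext ?_ (add_mul _ _ _))
    refine Eq.trans ?_ (e1_eta (e1 (x.2.1 0 * v) + e1 (y.2.1 0 * v)))
    exact congrArg e1 (add_mul _ _ _)
  map_smul' c x := by
    refine Prod.ext (mul_assoc _ _ _) (Prod.ext ?_ (mul_assoc _ _ _))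
    refine Eq.trans ?_ (e1_eta (c • e1 (x.2.1 0 * v)))
    exact congrArg e1 (mul_assoc _ _ _)
  left_inv x := by
    obtain ⟨h1, -⟩ := diag_unit hu
    obtain ⟨h3, -⟩ := diag_unit hv
    refine Prod.ext ?_ (Prod.ext ?_ ?_)
    · change x.1 * u * star u = x.1
      rw [mul_assoc, h1, mul_one]
    · change e1 (x.2.1 0 * v * star v) = x.2.1
      rw [mul_assoc, h3, mul_one, e1_eta]
    · change x.2.2 * u * star u = x.2.2
      rw [mul_assoc, h1, mul_one]
  right_inv x := by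
    obtain ⟨-, h1⟩ := diag_unit hu
    obtain ⟨-, h3⟩ := diag_unit hv
    refine Prod.ext ?_ (Prod.ext ?_ ?_)
    · change x.1 * star u * u = x.1
      rw [mul_assoc, h1, mul_one]
    · change e1 (x.2.1 0 * star v * v) = x.2.1
      rw [mul_assoc, h3, mul_one, e1_eta]
    · change x.2.2 * star u * u = x.2.2
      rw [mul_assoc, h1, mul_one]

theorem diag_conj {u : Q} (h : u * star u = 1) (x y : Q) : x * u * star (y * u) = x * star y := by
  rw [star_mul, mul_assoc, ← mul_assoc u, h, one_mul]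

theorem diag_UG (u v : Q) (hu : ‖u‖ = 1) (hv : ‖v‖ = 1) : diagE u v hu hv ∈ UG 1 := by
  intro x y
  obtain ⟨h1, -⟩ := diag_unit hu
  obtain ⟨h3, -⟩ := diag_unit hv
  unfold herm
  change x.1 * u * star (y.2.2 * u) + hin (e1 (x.2.1 0 * v)) (e1 (y.2.1 0 * v)) +
    x.2.2 * u * star (y.1 * u) = _
  rw [hin1, hin1, e1_apply, e1_apply, diag_conj h1, diag_conj h1, diag_conj h3]

theorem st_DIAG : ST_DIAG := by
  intro u hu v hv hun hvn
  obtain ⟨hu1, hu2⟩ := diag_unit hun
  obtain ⟨hv1, hv2⟩ := diag_unit hvn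
  have hG : diagE u v hun hvn ∈ Gam MO := by
    refine ⟨diag_UG u v hun hvn, fun x => ?_⟩
    rw [mem_MO, mem_MO]
    change x.1 * u ∈ HO ∧ x.2.1 0 * v ∈ HO ∧ x.2.2 * u ∈ HO ↔ _
    have key : ∀ a w : Q, w ∈ HO → w * star w = 1 → (a * w ∈ HO ↔ a ∈ HO) := by
      intro a w hw h1
      refine ⟨fun h => ?_, fun h => HO.mul_mem h hw⟩
      have := HO.mul_mem h (star_HO hw)
      rwa [mul_assoc, h1, mul_one] at this
    rw [key _ _ hu hu1, key _ _ hv hv1, key _ _ hu hu1]
  refine ⟨diagE u v hun hvn, hG, fun x => rfl, ?_⟩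
  intro p hp
  have hact : act (diagE u v hun hvn) p = (star u * p.1 * u, e1 (star u * p.2 0 * v)) := by
    have hinv : (1 * u)⁻¹ = star u := by
      rw [one_mul]
      exact inv_eq_of_mul_eq_one_right hu1
    unfold act pnt vec
    refine Prod.ext ?_ ?_
    · change (1 * u)⁻¹ * (p.1 * u) = star u * p.1 * u
      rw [hinv, mul_assoc]
    · change (1 * u)⁻¹ • (e1 (p.2 0 * v)) = e1 (star u * p.2 0 * v)
      rw [hinv, ← e1_eta (star u • e1 (p.2 0 * v))]
      refine congrArg e1 ?_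
      change star u * (p.2 0 * v) = star u * p.2 0 * v
      rw [mul_assoc]
  refine ⟨hact, ?_⟩
  rw [hact]
  unfold hgt
  have e1' : (star u * p.1 * u).re = p.1.re := by
    rw [re_mul_comm, ← mul_assoc, hu1, one_mul]
  have e2' : ‖e1 (star u * p.2 0 * v)‖ = ‖p.2‖ := by
    rw [e1_norm, norm_mul, norm_mul, norm_star, hun, hvn, one_mul, mul_one, ← e1_norm, e1_eta]
  change -(2 * (star u * p.1 * u).re + ‖e1 (star u * p.2 0 * v)‖ ^ 2) = _
  rw [e1', e2']

end Pool.Agent.Helper10.Qc
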