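import Pool.Agent.Helper10.Qc.Stmts

set_option autoImplicit false

namespace Pool.Agent.Helper10.Qc

open MeasureTheory
open Pool.Agent.Helper19.Qh Pool.Agent.Helper19.Qc

/-- general invariance: an equivalence of the index set which preserves the quadratic form -/
theorem fold_equiv (B : ℝ) (c c' : Fin 3 → ℝ) (e : (Fin 3 → ℤ) ≃ (Fin 3 → ℤ))
    (h : ∀ n : Fin 3 → ℤ, (c 0 + (e n) 0) ^ 2 + (c 1 + (e n) 1) ^ 2 + (c 2 + (e n) 2) ^ 2 =
      (c' 0 + n 0) ^ 2 + (c' 1 + n 1) ^ 2 + (c' 2 + n 2) ^ 2) : S3 B c = S3 B c' := by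
  unfold S3
  rw [← Equiv.tsum_eq e]
  refine tsum_congr fun n => ?_
  rw [h n]

/-- permutation -/
theorem fold_perm (B : ℝ) (c : Fin 3 → ℝ) (σ : Equiv.Perm (Fin 3)) :
    S3 B c = S3 B (fun i => c (σ i)) := by
  refine fold_equiv B c _ (Equiv.arrowCongr σ (Equiv.refl ℤ)) fun n => ?_
  have h1 : ∀ i, (Equiv.arrowCongr σ (Equiv.refl ℤ) n) i = n (σ.symm i) := fun i => rfl
  have h2 : ∑ i, (c i + ((n (σ.symm i) : ℤ) : ℝ)) ^ 2 = ∑ i, (c (σ i) + ((n i : ℤ) : ℝ)) ^ 2 := by
    rw [← Equiv.sum_comp σ]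
    refine Finset.sum_congr rfl fun i _ => ?_
    rw [Equiv.symm_apply_apply]
  rw [Fin.sum_univ_three, Fin.sum_univ_three] at h2
  simp only [h1]
  exact h2

/-- sign changes and translations -/
theorem fold_sign (B : ℝ) (c c' : Fin 3 → ℝ) (h : ∀ i, ∃ k : ℤ, c' i = c i - k ∨ c' i = k - c i) :
    S3 B c = S3 B c' := by
  choose k hk using h
  have hE : ∀ i : Fin 3, ∃ e : ℤ ≃ ℤ, ∀ n : ℤ, (c i + (e n : ℤ)) ^ 2 = (c' i + n) ^ 2 := by
    intro i
    rcases hk i with h | h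
    · refine ⟨Equiv.subRight (k i), fun n => ?_⟩
      have : (Equiv.subRight (k i)) n = n - k i := rfl
      rw [this, h]
      push_cast
      ring
    · refine ⟨(Equiv.neg ℤ).trans (Equiv.subRight (k i)), fun n => ?_⟩
      have : ((Equiv.neg ℤ).trans (Equiv.subRight (k i))) n = -n - k i := rfl
      rw [this, h]
      push_cast
      ring
  choose e he using hE
  refine fold_equiv B c c' (Equiv.piCongrRight e) fun n => ?_
  have h1 : ∀ i, (Equiv.piCongrRight e n) i = e i (n i) := fun i => rfl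
  simp only [h1]
  rw [he 0, he 1, he 2]

/-- distance to the nearest integer -/
theorem fold_round (x : ℝ) : ∃ y : ℝ, 0 ≤ y ∧ y ≤ 1 / 2 ∧ ∃ k : ℤ, y = x - k ∨ y = k - x := by
  refine ⟨|x - round x|, abs_nonneg _, abs_sub_round x, round x, ?_⟩
  rcases abs_choice (x - round x) with h | h
  · exact Or.inl h
  · right
    rw [h]
    ring

theorem st_FOLD : ST_FOLD := by
  intro B c
  choose y hy0 hy1 hy2 using fun i => fold_round (c i)
  have hs := fold_sign B c y hy2
  -- sort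
  have key : ∃ σ : Equiv.Perm (Fin 3), y (σ 2) ≤ y (σ 1) ∧ y (σ 1) ≤ y (σ 0) := by
    have hm := Tuple.monotone_sort y
    refine ⟨(Equiv.swap 0 2).trans (Tuple.sort y), ?_, ?_⟩
    · have a : ((Equiv.swap (0 : Fin 3) 2).trans (Tuple.sort y)) 2 = Tuple.sort y 0 := by
        simp
      have b : ((Equiv.swap (0 : Fin 3) 2).trans (Tuple.sort y)) 1 = Tuple.sort y 1 := by
        rw [Equiv.trans_apply, Equiv.swap_apply_of_ne_of_ne (by decide) (by decide)]
      rw [a, b]
      exact hm (by decide)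
    · have a : ((Equiv.swap (0 : Fin 3) 2).trans (Tuple.sort y)) 0 = Tuple.sort y 2 := by
        simp
      have b : ((Equiv.swap (0 : Fin 3) 2).trans (Tuple.sort y)) 1 = Tuple.sort y 1 := by
        rw [Equiv.trans_apply, Equiv.swap_apply_of_ne_of_ne (by decide) (by decide)]
      rw [a, b]
      exact hm (by decide)
  obtain ⟨σ, h1, h2⟩ := key
  exact ⟨fun i => y (σ i), hy0 _, h1, h2, hy1 _, hs.trans (fold_perm B y σ)⟩

end Pool.Agent.Helper10.Qc
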